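import Mathlib
import Pool.Agent.H167R2.KLWeight
import Pool.Agent.H663R5.BF.Struct

/-!
# Small traces and discrepancy
-/

set_option autoImplicit false

namespace Pool.Agent.Y963.BF.Lin

open Finset

variable {m n : ℕ}

/-- signs -/
noncomputable def sg (b : Bool) : ℝ := if b then 1 else -1

theorem sg_or (b : Bool) : sg b = 1 ∨ sg b = -1 := by cases b <;> simp [sg]

/-- rounding of dyadic points -/
theorem dyadic (a : Fin m → Fin n → ℝ) (B : Fin m → ℝ) (F : Finset (Fin n))
    (h : ∀ X ⊆ F, ∃ e : Fin n → ℝ, (∀ j, e j = 1 ∨ e j = -1) ∧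
      ∀ i, |∑ j ∈ X, a i j * e j| ≤ B i) :
    ∀ (k : ℕ) (y : Fin n → ℝ), (∀ j, j ∉ F → y j = 1 ∨ y j = -1) →
      (∀ j ∈ F, ∃ c : ℤ, 0 ≤ c ∧ c ≤ 2 ^ k ∧ y j = -1 + 2 * c / 2 ^ k) →
      ∃ x : Fin n → ℝ, (∀ j, x j = 1 ∨ x j = -1) ∧ (∀ j, j ∉ F → x j = y j) ∧
        ∀ i, |∑ j, a i j * (x j - y j)| ≤ 2 * (1 - 1 / 2 ^ k) * B i := by
  classical
  intro k
  induction k with
  | zero =>
    intro y hy hc
    refine ⟨y, fun j => ?_, fun j _ => rfl, fun i => by simp⟩
    by_cases hj : j ∈ F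
    · obtain ⟨c, c0, c1, c2⟩ := hc j hj
      have : c = 0 ∨ c = 1 := by
        rw [pow_zero] at c1
        omega
      rcases this with rfl | rfl
      · right; rw [c2]; norm_num
      · left; rw [c2]; norm_num
    · exact hy j hj
  | succ k ih =>
    intro y hy hc
    choose! c c0 c1 c2 using hc
    set X := F.filter (fun j => Odd (c j)) with hX
    obtain ⟨e, he1, he2⟩ := h X (filter_subset _ _)
    set y' : Fin n → ℝ := fun j => if j ∈ X then y j + e j / 2 ^ k else y j with hy'
    have hXF : ∀ j, j ∈ X → j ∈ F := fun j hj => (mem_filter.1 hj).1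
    obtain ⟨x, hx1, hx2, hx3⟩ := ih y' (by
      intro j hj
      have : j ∉ X := fun h => hj (hXF j h)
      simp only [hy', if_neg this]
      exact hy j hj) (by
      intro j hj
      have hp : (2 : ℝ) ^ (k + 1) = 2 * 2 ^ k := by ring
      have hpz : (2 : ℤ) ^ (k + 1) = 2 * 2 ^ k := by ring
      have hk0 : (0 : ℝ) < 2 ^ k := by positivity
      have d0 := c0 j hj
      have d1 := c1 j hj
      have d2 := c2 j hj
      rw [hpz] at d1
      rw [hp] at d2
      by_cases hjX : j ∈ X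
      · obtain ⟨r, hr⟩ := (mem_filter.1 hjX).2
        simp only [hy', if_pos hjX]
        rcases he1 j with he | he
        · refine ⟨r + 1, by omega, by omega, ?_⟩
          rw [d2, he, hr]
          push_cast
          field_simp
          ring
        · refine ⟨r, by omega, by omega, ?_⟩
          rw [d2, he, hr]
          push_cast
          field_simp
          ring
      · have hev : Even (c j) := by
          rw [← Int.not_odd_iff_even]
          intro hodd
          exact hjX (mem_filter.2 ⟨hj, hodd⟩)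
        obtain ⟨r, hr⟩ := hev
        simp only [hy', if_neg hjX]
        refine ⟨r, by omega, by omega, ?_⟩
        rw [d2, hr]
        push_cast
        field_simp
        ring)
    refine ⟨x, hx1, fun j hj => ?_, fun i => ?_⟩
    · rw [hx2 j hj]
      have : j ∉ X := fun h => hj (hXF j h)
      simp only [hy', if_neg this]
    · have e1 : ∑ j, a i j * (x j - y j) =
          ∑ j, a i j * (x j - y' j) + (∑ j ∈ X, a i j * e j) * (1 / 2 ^ k) := by
        have e2 : (∑ j ∈ X, a i j * e j) * (1 / 2 ^ k) =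
            ∑ j, (if j ∈ X then a i j * e j * (1 / 2 ^ k) else 0) := by
          rw [Finset.sum_mul, ← Finset.sum_filter]
          congr 1
          ext j
          simp
        rw [e2, ← Finset.sum_add_distrib]
        refine sum_congr rfl fun j _ => ?_
        simp only [hy']
        split_ifs
        · ring
        · ring
      have hk0 : (0 : ℝ) < 1 / 2 ^ k := by positivity
      rw [e1]
      calc _ ≤ |∑ j, a i j * (x j - y' j)| + |(∑ j ∈ X, a i j * e j) * (1 / 2 ^ k)| :=
            abs_add_le _ _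
        _ ≤ 2 * (1 - 1 / 2 ^ k) * B i + B i * (1 / 2 ^ k) := by
            rw [abs_mul, abs_of_pos hk0]
            exact add_le_add (hx3 i) (mul_le_mul_of_nonneg_right (he2 i) hk0.le)
        _ = 2 * (1 - 1 / 2 ^ (k + 1)) * B i := by
            rw [pow_succ]
            field_simp
            ring

/-- linear discrepancy is at most twice the hereditary discrepancy (Lovász, Spencer,
Vesztergombi), with a separate bound for every row -/
theorem lin (a : Fin m → Fin n → ℝ) (B : Fin m → ℝ) (hB : ∀ i, 0 ≤ B i) (F : Finset (Fin n))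
    (h : ∀ X ⊆ F, ∃ e : Fin n → ℝ, (∀ j, e j = 1 ∨ e j = -1) ∧
      ∀ i, |∑ j ∈ X, a i j * e j| ≤ B i) (y : Fin n → ℝ) (hy : ∀ j, |y j| ≤ 1)
    (hF : ∀ j, j ∉ F → |y j| = 1) :
    ∃ x : Fin n → ℝ, (∀ j, x j = 1 ∨ x j = -1) ∧
      ∀ i, |∑ j, a i j * (x j - y j)| ≤ 2 * B i := by
  classical
  set S : ℝ := ∑ i, ∑ j, |a i j| with hS
  have hS0 : 0 ≤ S := sum_nonneg fun i _ => sum_nonneg fun j _ => abs_nonneg _
  have hSi : ∀ i, ∑ j, |a i j| ≤ S := fun i =>
    single_le_sum (f := fun i => ∑ j, |a i j|) (fun i _ => sum_nonneg fun j _ => abs_nonneg _)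
      (mem_univ i)
  have key : ∀ k : ℕ, ∃ b : Fin n → Bool,
      ∀ i, |∑ j, a i j * (sg (b j) - y j)| ≤ 2 * B i + 2 / 2 ^ k * S := by
    intro k
    have hk0 : (0 : ℝ) < 2 ^ k := by positivity
    set c : Fin n → ℤ := fun j => ⌊(2 : ℝ) ^ k * ((1 + y j) / 2)⌋ with hc
    set z : Fin n → ℝ := fun j => if j ∈ F then -1 + 2 * c j / 2 ^ k else y j with hz
    have hyz : ∀ j, |z j - y j| ≤ 2 / 2 ^ k := by
      intro j
      simp only [hz]
      split_ifs with hj
      · have h1 := Int.floor_le ((2 : ℝ) ^ k * ((1 + y j) / 2))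
        have h2 := Int.lt_floor_add_one ((2 : ℝ) ^ k * ((1 + y j) / 2))
        have e1 : -1 + 2 * (c j : ℝ) / 2 ^ k - y j =
            2 / 2 ^ k * ((c j : ℝ) - 2 ^ k * ((1 + y j) / 2)) := by
          field_simp
          ring
        rw [e1, abs_mul, abs_of_pos (by positivity : (0 : ℝ) < 2 / 2 ^ k)]
        have h3 : |(c j : ℝ) - 2 ^ k * ((1 + y j) / 2)| ≤ 1 := by
          rw [abs_le]
          simp only [hc]
          constructor <;> linarith
        calc 2 / 2 ^ k * |(c j : ℝ) - 2 ^ k * ((1 + y j) / 2)| ≤ 2 / 2 ^ k * 1 := by gcongr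
          _ = _ := mul_one _
      · simp only [sub_self, abs_zero]; positivity
    obtain ⟨x, hx1, hx2, hx3⟩ := dyadic a B F h k z (by
      intro j hj
      simp only [hz, if_neg hj]
      exact (abs_eq zero_le_one).1 (hF j hj)) (by
      intro j hj
      have h4 := abs_le.1 (hy j)
      refine ⟨c j, ?_, ?_, by simp only [hz, if_pos hj]⟩
      · exact Int.floor_nonneg.2 (by
          have : 0 ≤ (1 + y j) / 2 := by linarith [h4.1]
          positivity)
      · have h5 : ⌊(2 : ℝ) ^ k * ((1 + y j) / 2)⌋ ≤ ⌊(((2 ^ k : ℤ)) : ℝ)⌋ := by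
          apply Int.floor_le_floor
          push_cast
          have : (1 + y j) / 2 ≤ 1 := by linarith [h4.2]
          nlinarith
        rwa [Int.floor_intCast] at h5)
    refine ⟨fun j => decide (x j = 1), fun i => ?_⟩
    have hxs : ∀ j, sg (decide (x j = 1)) = x j := by
      intro j
      rcases hx1 j with hj | hj
      · simp [sg, hj]
      · simp [sg, hj]; norm_num
    simp only [hxs]
    have e1 : ∑ j, a i j * (x j - y j) = ∑ j, a i j * (x j - z j) + ∑ j, a i j * (z j - y j) := by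
      rw [← Finset.sum_add_distrib]
      exact sum_congr rfl fun j _ => by ring
    rw [e1]
    refine (abs_add_le _ _).trans (add_le_add ?_ ?_)
    · refine (hx3 i).trans ?_
      have h6 : (0 : ℝ) ≤ 1 / 2 ^ k := by positivity
      have h7 := hB i
      nlinarith
    · calc |∑ j, a i j * (z j - y j)| ≤ ∑ j, |a i j * (z j - y j)| :=
            Finset.abs_sum_le_sum_abs _ _
        _ ≤ ∑ j, |a i j| * (2 / 2 ^ k) := by
            refine sum_le_sum fun j _ => ?_
            rw [abs_mul]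
            exact mul_le_mul_of_nonneg_left (hyz j) (abs_nonneg _)
        _ = 2 / 2 ^ k * ∑ j, |a i j| := by rw [← Finset.sum_mul]; ring
        _ ≤ 2 / 2 ^ k * S := by
            have := hSi i
            gcongr
  -- one colouring works for all `k`
  have key2 : ∃ b : Fin n → Bool, ∀ k : ℕ,
      ∀ i, |∑ j, a i j * (sg (b j) - y j)| ≤ 2 * B i + 2 / 2 ^ k * S := by
    by_contra hcon
    push Not at hcon
    choose K i hK using hcon
    obtain ⟨b, hb⟩ := key (univ.sup K)
    have h1 := hb (i b)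
    have h2 := hK b
    have h3 : K b ≤ univ.sup K := le_sup (mem_univ b)
    have h4 : (2 : ℝ) / 2 ^ (univ.sup K) ≤ 2 / 2 ^ (K b) := by
      have h5 : (2 : ℝ) ^ (K b) ≤ 2 ^ (univ.sup K) := pow_le_pow_right₀ (by norm_num) h3
      gcongr
    have h6 : (2 : ℝ) / 2 ^ (univ.sup K) * S ≤ 2 / 2 ^ (K b) * S :=
      mul_le_mul_of_nonneg_right h4 hS0
    linarith
  obtain ⟨b, hb⟩ := key2
  refine ⟨fun j => sg (b j), fun j => sg_or _, fun i => ?_⟩
  have h1 : Filter.Tendsto (fun k : ℕ => 2 * B i + 2 / 2 ^ k * S) Filter.atTop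
      (nhds (2 * B i + 2 * 0 * S)) := by
    have h2 : Filter.Tendsto (fun k : ℕ => ((1 : ℝ) / 2) ^ k) Filter.atTop (nhds 0) :=
      tendsto_pow_atTop_nhds_zero_of_lt_one (by norm_num) (by norm_num)
    have h3 : (fun k : ℕ => 2 * B i + 2 / 2 ^ k * S) =
        fun k : ℕ => 2 * B i + 2 * ((1 : ℝ) / 2) ^ k * S := by
      funext k
      rw [one_div, inv_pow]
      ring
    rw [h3]
    exact ((h2.const_mul 2).mul_const S).const_add _
  have h4 := ge_of_tendsto' h1 (fun k => hb k i)
  linarith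

/-- **Small traces suffice.** -/
theorem small (a : Fin m → Fin n → ℝ) (t ε : ℝ) (ht : 1 ≤ t)
    (a1 : ∀ i j, |a i j| ≤ 1) (hcol : ∀ j, ∑ i, a i j ^ 2 ≤ t) (hε0 : 0 < ε) (hε : ε ≤ 1 / 2)
    (p : Fin n → ℝ) (hp0 : ∀ j, 0 ≤ p j) (B : Fin m → ℝ)
    (hsm : ∀ X : Finset (Fin n), ∑ j ∈ X, p j ≤ ε * ∑ j, p j →
      ∃ e : Fin n → ℝ, (∀ j, e j = 1 ∨ e j = -1) ∧ ∀ i, |∑ j ∈ X, a i j * e j| ≤ B i) :
    ∃ χ : Fin n → ℝ, (∀ j, χ j = 1 ∨ χ j = -1) ∧
      ∀ i, |∑ j, a i j * χ j| ≤ H167KL.fin t ε + 2 * B i := by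
  classical
  have hB : ∀ i, 0 ≤ B i := by
    intro i
    obtain ⟨e, -, he⟩ := hsm ∅ (by
      rw [sum_empty]
      exact mul_nonneg hε0.le (sum_nonneg fun j _ => hp0 j))
    have := he i
    rw [sum_empty, abs_zero] at this
    exact this
  obtain ⟨x, hx1, hx2, hx3⟩ := H167KL.weighted a t ht a1 hcol ε hε0 hε p hp0
  obtain ⟨χ, h1, h2⟩ := lin a B hB (univ.filter (fun j => |x j| < 1)) (by
    intro X hX
    refine hsm X (le_trans ?_ hx3)
    rw [← Finset.sum_filter]
    exact Finset.sum_le_sum_of_subset_of_nonneg hX (fun j _ _ => hp0 j)) x hx1 (by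
    intro j hj
    have : ¬ |x j| < 1 := fun h => hj (mem_filter.2 ⟨mem_univ _, h⟩)
    exact le_antisymm (hx1 j) (not_lt.1 this))
  refine ⟨χ, h1, fun i => ?_⟩
  have e : ∑ j, a i j * χ j = ∑ j, a i j * x j + ∑ j, a i j * (χ j - x j) := by
    rw [← Finset.sum_add_distrib]
    exact sum_congr rfl fun j _ => by ring
  rw [e]
  exact (abs_add_le _ _).trans (add_le_add (hx2 i) (h2 i))

/-- **No small dense spots.** -/
theorem spots (a : Fin m → Fin n → ℝ) (t ε : ℝ) (ht : 1 ≤ t)
    (a1 : ∀ i j, |a i j| ≤ 1) (hcol : ∀ j, ∑ i, a i j ^ 2 ≤ t) (hε0 : 0 < ε) (hε : ε ≤ 1 / 2)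
    (p : Fin n → ℝ) (hp0 : ∀ j, 0 ≤ p j) (T : Fin m → ℝ) (hT : ∀ i, 0 ≤ T i)
    (hloc : ∀ X : Finset (Fin n), X.Nonempty → ∑ j ∈ X, p j ≤ ε * ∑ j, p j →
      (univ.filter (fun i => T i < ∑ j ∈ X, |a i j|)).card < X.card) :
    ∃ χ : Fin n → ℝ, (∀ j, χ j = 1 ∨ χ j = -1) ∧
      ∀ i, |∑ j, a i j * χ j| ≤ H167KL.fin t ε + 2 * T i := by
  classical
  refine small a t ε ht a1 hcol hε0 hε p hp0 T fun X hX => ?_
  obtain ⟨x, hx⟩ := H294BF.hall_signing
    (fun i j => if j ∈ X then a i j else 0) T hT (by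
      intro S hS
      have hsum : ∀ i, ∑ j ∈ S, |if j ∈ X then a i j else 0| = ∑ j ∈ S ∩ X, |a i j| := by
        intro i
        rw [← Finset.sum_filter_add_sum_filter_not S (fun j => j ∈ X)]
        rw [Finset.filter_mem_eq_inter]
        have e1 : ∑ j ∈ S.filter (fun j => j ∉ X), |if j ∈ X then a i j else 0| = 0 := by
          apply sum_eq_zero
          intro j hj
          rw [if_neg (mem_filter.1 hj).2, abs_zero]
        rw [e1, add_zero]
        exact sum_congr rfl fun j hj => by rw [if_pos (mem_inter.1 hj).2]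
      simp only [hsum]
      rcases (S ∩ X).eq_empty_or_nonempty with h0 | h0
      · rw [h0]
        have : univ.filter (fun i => T i < ∑ j ∈ (∅ : Finset (Fin n)), |a i j|) = ∅ := by
          apply filter_eq_empty_iff.2
          intro i _
          rw [sum_empty]
          exact not_lt.2 (hT i)
        rw [this, card_empty]
        exact card_pos.2 hS
      · have h1 := hloc (S ∩ X) h0 (le_trans (Finset.sum_le_sum_of_subset_of_nonneg
          inter_subset_right (fun j _ _ => hp0 j)) hX)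
        exact h1.trans_le (card_le_card inter_subset_left))
  refine ⟨fun j => sg (x j), fun j => sg_or _, fun i => ?_⟩
  have h1 := hx i
  have e1 : H294BF.row (fun i j => if j ∈ X then a i j else 0) x i = ∑ j ∈ X, a i j * sg (x j) := by
    unfold H294BF.row
    simp only [ite_mul, zero_mul]
    rw [← Finset.sum_filter]
    refine Finset.sum_congr (by ext j; simp) fun j _ => rfl
  rwa [e1] at h1

end Pool.Agent.Y963.BF.Lin
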