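import Mathlib

/-!
# Local density of random set systems with spread columns
-/

set_option autoImplicit false

namespace Pool.Agent.Y963.BF.Ran

open Finset

variable {m n : ℕ}

/-- incidences between `X` and `R` -/
def inc (ω : Fin n → Finset (Fin m)) (X : Finset (Fin n)) (R : Finset (Fin m)) :
    Finset (Fin n × Fin m) := (X ×ˢ R).filter (fun p => p.2 ∈ ω p.1)

/-- columns of a set of incidences -/
def col (E : Finset (Fin n × Fin m)) (j : Fin n) : Finset (Fin m) :=
  univ.filter (fun i => (j, i) ∈ E)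

theorem sum_col (E : Finset (Fin n × Fin m)) : ∑ j, (col E j).card = E.card := by
  classical
  have h := Finset.card_eq_sum_card_fiberwise (s := E) (t := (univ : Finset (Fin n)))
    (f := fun p => p.1) (fun _ _ => mem_univ _)
  rw [h]
  refine sum_congr rfl fun j _ => ?_
  refine Finset.card_bij (fun i _ => (j, i)) ?_ ?_ ?_
  · intro i hi
    simp only [col, mem_filter, mem_univ, true_and] at hi
    simp [hi]
  · intro i _ i' _ h
    simpa using h
  · rintro ⟨j', i⟩ hp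
    simp only [mem_filter] at hp
    obtain ⟨h1, h2⟩ := hp
    subst h2
    exact ⟨i, by simp [col, h1], rfl⟩

/-- the probability that all incidences of `E` are present -/
theorem prob_all (q : Fin n → Finset (Fin m) → ℝ) (h0 : ∀ j D, 0 ≤ q j D) (c : ℝ)
    (hs : ∀ j (R : Finset (Fin m)),
      ∑ D ∈ univ.filter (fun D => R ⊆ D), q j D ≤ c ^ R.card) (E : Finset (Fin n × Fin m)) :
    ∑ ω ∈ Fintype.piFinset (fun j => univ.filter (fun D => col E j ⊆ D)), ∏ j, q j (ω j) ≤
      c ^ E.card := by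
  classical
  rw [← Finset.prod_univ_sum, ← sum_col E, ← Finset.prod_pow_eq_pow_sum]
  exact Finset.prod_le_prod (fun j _ => sum_nonneg fun D _ => h0 j D) (fun j _ => hs j _)

/-- a dense spot at scale `K` -/
def Bad (K : ℕ) (ω : Fin n → Finset (Fin m)) : Prop :=
  ∃ X : Finset (Fin n), ∃ R : Finset (Fin m), X.Nonempty ∧ X.card ≤ K ∧ R.card = X.card ∧
    8 * X.card ≤ (inc ω X R).card

theorem choose_le (N k : ℕ) (hk : 1 ≤ k) : (N.choose k : ℝ) ≤ (3 * N / k) ^ k := by
  have hk0 : (0 : ℝ) < k := by exact_mod_cast hk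
  have h1 : (N.choose k : ℝ) ≤ (N : ℝ) ^ k / k.factorial := Nat.choose_le_pow_div k N
  have h2 : (k : ℝ) ^ k / k.factorial ≤ Real.exp k := Real.pow_div_factorial_le_exp _ hk0.le k
  have h3 : Real.exp (k : ℝ) ≤ 3 ^ k := by
    have h4 : Real.exp (k : ℝ) = Real.exp 1 ^ k := by rw [← Real.exp_nat_mul]; simp
    rw [h4]
    have h5 := Real.exp_one_lt_d9
    exact pow_le_pow_left₀ (Real.exp_pos _).le (by linarith) k
  have hf : (0 : ℝ) < k.factorial := by exact_mod_cast Nat.factorial_pos k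
  calc (N.choose k : ℝ) ≤ (N : ℝ) ^ k / k.factorial := h1
    _ = ((N : ℝ) ^ k / (k : ℝ) ^ k) * ((k : ℝ) ^ k / k.factorial) := by field_simp
    _ ≤ ((N : ℝ) ^ k / (k : ℝ) ^ k) * 3 ^ k :=
        mul_le_mul_of_nonneg_left (h2.trans h3) (by positivity)
    _ = (3 * N / k) ^ k := by
        rw [div_pow, mul_pow]; ring

/-- the number of dense spots of size `x` -/
theorem term_le (m n x : ℕ) (hm : 1 ≤ m) (hn : 1 ≤ n) (hx : 1 ≤ x) (b : ℝ) (hb : 1 ≤ b)
    (hxn : 2 * (b * max 1 ((n : ℝ) / m)) ^ 2 * x ≤ n) :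
    (n.choose x : ℝ) * (m.choose x) * ((x * x).choose (8 * x)) * (b / m) ^ (8 * x) ≤
      (1 / 4) * (n * b ^ 8 / m ^ 7) * (1 / 2) ^ (x - 1) := by
  have hm0 : (0 : ℝ) < m := by exact_mod_cast hm
  have hn0 : (0 : ℝ) < n := by exact_mod_cast hn
  have hx0 : (0 : ℝ) < x := by exact_mod_cast hx
  have hb0 : 0 < b := by linarith
  set G : ℝ := n * b ^ 8 / m ^ 7 with hG
  have hG0 : 0 < G := by positivity
  set r : ℝ := (9 * (3 / 8) ^ 8) * G * (x : ℝ) ^ 6 with hr
  have hr0 : 0 < r := by positivity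
  have h1 := choose_le n x hx
  have h2 := choose_le m x hx
  have h3 : (((x * x).choose (8 * x) : ℕ) : ℝ) ≤ (3 * x / 8) ^ (8 * x) := by
    have h := choose_le (x * x) (8 * x) (by omega)
    have e : (3 * ((x * x : ℕ) : ℝ) / ((8 * x : ℕ) : ℝ)) = 3 * x / 8 := by
      push_cast
      field_simp
    rwa [e] at h
  have hA : (n.choose x : ℝ) * (m.choose x) * ((x * x).choose (8 * x)) * (b / m) ^ (8 * x) ≤
      r ^ x := by
    calc _ ≤ (3 * n / x) ^ x * (3 * m / x) ^ x * (3 * x / 8) ^ (8 * x) * (b / m) ^ (8 * x) := by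
          gcongr
      _ = r ^ x := by
          rw [pow_mul (3 * (x : ℝ) / 8) 8 x, pow_mul (b / (m : ℝ)) 8 x, ← mul_pow, ← mul_pow,
            ← mul_pow]
          congr 1
          rw [hr, hG]
          field_simp
          ring
  refine hA.trans ?_
  -- size of `r`
  set M : ℝ := max 1 ((n : ℝ) / m) with hM
  have hM1 : 1 ≤ M := le_max_left _ _
  have hMn : (n : ℝ) / m ≤ M := le_max_right _ _
  have hr1 : r ≤ 1 / 128 := by
    have hx1 : (x : ℝ) ≤ n / (2 * (b * M) ^ 2) := by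
      rw [le_div_iff₀ (by positivity)]; linarith
    have h4 : G * (x : ℝ) ^ 6 ≤ 1 / 64 := by
      calc G * (x : ℝ) ^ 6 ≤ G * (n / (2 * (b * M) ^ 2)) ^ 6 := by gcongr
        _ = ((n : ℝ) / m) ^ 7 * b ^ 8 / (64 * (b * M) ^ 12) := by
            rw [hG]; field_simp; ring
        _ ≤ M ^ 7 * b ^ 8 / (64 * (b * M) ^ 12) := by gcongr
        _ ≤ M ^ 12 * b ^ 12 / (64 * (b * M) ^ 12) := by
            have e1 : M ^ 7 ≤ M ^ 12 := pow_le_pow_right₀ hM1 (by norm_num)
            have e2 : b ^ 8 ≤ b ^ 12 := pow_le_pow_right₀ hb (by norm_num)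
            gcongr ?_ / _
            exact mul_le_mul e1 e2 (by positivity) (by positivity)
        _ = 1 / 64 := by field_simp
    have h5 : r = (9 * (3 / 8) ^ 8) * (G * (x : ℝ) ^ 6) := by rw [hr]; ring
    rw [h5]
    calc (9 * (3 / 8) ^ 8) * (G * (x : ℝ) ^ 6) ≤ (9 * (3 / 8) ^ 8) * (1 / 64) := by gcongr
      _ ≤ 1 / 128 := by norm_num
  obtain ⟨y, rfl⟩ : ∃ y, x = y + 1 := ⟨x - 1, by omega⟩
  have hy2 : ((y + 1 : ℕ) : ℝ) ^ 6 ≤ 64 ^ y := by
    have h6 : ((y + 1 : ℕ) : ℝ) ≤ 2 ^ y := by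
      exact_mod_cast Nat.lt_two_pow_self (n := y)
    calc ((y + 1 : ℕ) : ℝ) ^ 6 ≤ (2 ^ y) ^ 6 := by gcongr
      _ = 64 ^ y := by rw [← pow_mul, mul_comm, pow_mul]; norm_num
  rw [Nat.add_sub_cancel, pow_succ]
  calc r ^ y * r ≤ (1 / 128) ^ y * ((9 * (3 / 8) ^ 8) * G * 64 ^ y) := by
        rw [hr]
        gcongr
    _ = (9 * (3 / 8) ^ 8) * G * (1 / 2) ^ y := by
        rw [show (1 / 2 : ℝ) = (1 / 128) * 64 by norm_num, mul_pow]; ring
    _ ≤ 1 / 4 * G * (1 / 2) ^ y := by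
        gcongr
        norm_num

theorem step {α β : Type*} [Fintype α] (s : Finset β) (f : α → β → ℝ) (B : ℝ)
    (h : ∀ X ∈ s, ∑ ω, f ω X ≤ B) : ∑ ω, ∑ X ∈ s, f ω X ≤ s.card * B := by
  rw [Finset.sum_comm]
  exact (Finset.sum_le_card_nsmul _ _ _ h).trans_eq (nsmul_eq_mul _ _)

theorem geo (K : ℕ) : ∑ x ∈ Icc 1 K, (1 / 2 : ℝ) ^ (x - 1) ≤ 2 := by
  have h : ∑ x ∈ Icc 1 K, (1 / 2 : ℝ) ^ (x - 1) = ∑ x ∈ range K, (1 / 2 : ℝ) ^ x := by
    rw [Finset.range_eq_Ico, Finset.sum_Ico_eq_sum_range]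
    rw [show Icc 1 K = Ico 1 (K + 1) from rfl, Finset.sum_Ico_eq_sum_range]
    refine Finset.sum_congr (by simp) fun x _ => ?_
    congr 1
    omega
  rw [h]
  have := geom_sum_eq (show (1 / 2 : ℝ) ≠ 1 by norm_num) K
  rw [this]
  have h2 : (0 : ℝ) ≤ (1 / 2) ^ K := by positivity
  rw [div_le_iff_of_neg (by norm_num)]
  linarith

open Classical in
/-- the probability of a dense spot -/
theorem union_bound (q : Fin n → Finset (Fin m) → ℝ) (h0 : ∀ j D, 0 ≤ q j D) (b : ℝ)
    (hb : 1 ≤ b) (hm : 1 ≤ m) (hn : 1 ≤ n)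
    (hs : ∀ j (R : Finset (Fin m)),
      ∑ D ∈ univ.filter (fun D => R ⊆ D), q j D ≤ (b / m) ^ R.card) (K : ℕ)
    (hK : 2 * (b * max 1 ((n : ℝ) / m)) ^ 2 * K ≤ n) :
    ∑ ω ∈ univ.filter (fun ω : Fin n → Finset (Fin m) => Bad K ω), ∏ j, q j (ω j) ≤
      (1 / 2) * (n * b ^ 8 / m ^ 7) := by
  set c : ℝ := b / m with hc
  have hm0 : (0 : ℝ) < m := by exact_mod_cast hm
  have hc0 : 0 ≤ c := by positivity
  have hP : ∀ ω : Fin n → Finset (Fin m), 0 ≤ ∏ j, q j (ω j) :=
    fun ω => prod_nonneg fun j _ => h0 j _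
  set f : (Fin n → Finset (Fin m)) → Finset (Fin n × Fin m) → ℝ :=
    fun ω E => if (∀ j, col E j ⊆ ω j) then ∏ j, q j (ω j) else 0 with hf
  have hf0 : ∀ ω E, 0 ≤ f ω E := by
    intro ω E
    simp only [hf]
    split_ifs
    · exact hP ω
    · exact le_rfl
  have hfE : ∀ E, ∑ ω, f ω E ≤ c ^ E.card := by
    intro E
    refine le_trans (le_of_eq ?_) (prob_all q h0 c hs E)
    simp only [hf]
    rw [← Finset.sum_filter]
    refine Finset.sum_congr ?_ fun _ _ => rfl
    ext ω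
    simp [Fintype.mem_piFinset]
  have h1 : ∑ ω ∈ univ.filter (fun ω : Fin n → Finset (Fin m) => Bad K ω), ∏ j, q j (ω j) ≤
      ∑ ω, ∑ x ∈ Icc 1 K, ∑ X ∈ powersetCard x (univ : Finset (Fin n)),
        ∑ R ∈ powersetCard x (univ : Finset (Fin m)),
          ∑ E ∈ powersetCard (8 * x) (X ×ˢ R), f ω E := by
    rw [Finset.sum_filter]
    refine sum_le_sum fun ω _ => ?_
    have hin : ∀ x X R, 0 ≤ ∑ E ∈ powersetCard (8 * x) (X ×ˢ R), f ω E :=
      fun x X R => sum_nonneg fun E _ => hf0 ω E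
    split_ifs with hB
    · obtain ⟨X, R, hX, hXK, hRX, hE⟩ := hB
      obtain ⟨E, hE1, hE2⟩ := Finset.exists_subset_card_eq hE
      have hx : X.card ∈ Icc 1 K := mem_Icc.2 ⟨card_pos.2 hX, hXK⟩
      have hEX : E ∈ powersetCard (8 * X.card) (X ×ˢ R) :=
        mem_powersetCard.2 ⟨hE1.trans (filter_subset _ _), hE2⟩
      have hfv : ∏ j, q j (ω j) = f ω E := by
        simp only [hf]
        rw [if_pos]
        intro j i hi
        have h2 := hE1 (mem_filter.1 hi).2
        exact (mem_filter.1 h2).2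
      rw [hfv]
      calc f ω E ≤ ∑ E ∈ powersetCard (8 * X.card) (X ×ˢ R), f ω E :=
            single_le_sum (f := fun E => f ω E) (fun E _ => hf0 ω E) hEX
        _ ≤ ∑ R ∈ powersetCard X.card (univ : Finset (Fin m)),
            ∑ E ∈ powersetCard (8 * X.card) (X ×ˢ R), f ω E :=
            single_le_sum (f := fun R => ∑ E ∈ powersetCard (8 * X.card) (X ×ˢ R), f ω E)
              (fun R _ => hin _ _ _) (mem_powersetCard.2 ⟨subset_univ _, hRX⟩)
        _ ≤ ∑ Y ∈ powersetCard X.card (univ : Finset (Fin n)),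
            ∑ R ∈ powersetCard X.card (univ : Finset (Fin m)),
            ∑ E ∈ powersetCard (8 * X.card) (Y ×ˢ R), f ω E :=
            single_le_sum (f := fun Y => ∑ R ∈ powersetCard X.card (univ : Finset (Fin m)),
              ∑ E ∈ powersetCard (8 * X.card) (Y ×ˢ R), f ω E)
              (fun Y _ => sum_nonneg fun R _ => hin _ _ _)
              (mem_powersetCard.2 ⟨subset_univ _, rfl⟩)
        _ ≤ _ :=
            single_le_sum (f := fun x => ∑ Y ∈ powersetCard x (univ : Finset (Fin n)),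
              ∑ R ∈ powersetCard x (univ : Finset (Fin m)),
              ∑ E ∈ powersetCard (8 * x) (Y ×ˢ R), f ω E)
              (fun x _ => sum_nonneg fun Y _ => sum_nonneg fun R _ => hin _ _ _) hx
    · exact sum_nonneg fun x _ => sum_nonneg fun Y _ => sum_nonneg fun R _ => hin _ _ _
  refine h1.trans ?_
  rw [Finset.sum_comm]
  have h2 : ∀ x ∈ Icc 1 K, ∑ ω, ∑ X ∈ powersetCard x (univ : Finset (Fin n)),
        ∑ R ∈ powersetCard x (univ : Finset (Fin m)),
          ∑ E ∈ powersetCard (8 * x) (X ×ˢ R), f ω E ≤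
      (1 / 4) * (n * b ^ 8 / m ^ 7) * (1 / 2) ^ (x - 1) := by
    intro x hx
    obtain ⟨hx1, hxK⟩ := mem_Icc.1 hx
    refine le_trans ?_ (term_le m n x hm hn hx1 b hb (le_trans ?_ hK))
    · have h3 : ∀ X ∈ powersetCard x (univ : Finset (Fin n)), ∑ ω,
          ∑ R ∈ powersetCard x (univ : Finset (Fin m)),
          ∑ E ∈ powersetCard (8 * x) (X ×ˢ R), f ω E ≤
          (m.choose x : ℝ) * ((x * x).choose (8 * x) * c ^ (8 * x)) := by
        intro X hX
        have hXc := (mem_powersetCard.1 hX).2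
        have h4 : ∀ R ∈ powersetCard x (univ : Finset (Fin m)), ∑ ω,
            ∑ E ∈ powersetCard (8 * x) (X ×ˢ R), f ω E ≤
            (x * x).choose (8 * x) * c ^ (8 * x) := by
          intro R hR
          have hRc := (mem_powersetCard.1 hR).2
          have h5 := step (powersetCard (8 * x) (X ×ˢ R)) f (c ^ (8 * x)) (by
            intro E hE
            have hEc := (mem_powersetCard.1 hE).2
            rw [← hEc]
            exact hfE E)
          rwa [card_powersetCard, card_product, hXc, hRc] at h5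
        have h6 := step (powersetCard x (univ : Finset (Fin m)))
          (fun ω R => ∑ E ∈ powersetCard (8 * x) (X ×ˢ R), f ω E) _ h4
        rwa [card_powersetCard, card_univ, Fintype.card_fin] at h6
      have h7 := step (powersetCard x (univ : Finset (Fin n)))
        (fun ω X => ∑ R ∈ powersetCard x (univ : Finset (Fin m)),
          ∑ E ∈ powersetCard (8 * x) (X ×ˢ R), f ω E) _ h3
      rw [card_powersetCard, card_univ, Fintype.card_fin] at h7
      refine h7.trans (le_of_eq ?_)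
      ring
    · gcongr
  refine (sum_le_sum h2).trans ?_
  rw [← Finset.mul_sum]
  calc (1 / 4) * (n * b ^ 8 / m ^ 7) * ∑ x ∈ Icc 1 K, (1 / 2 : ℝ) ^ (x - 1) ≤
      (1 / 4) * (n * b ^ 8 / m ^ 7) * 2 := by
        have := geo K
        gcongr
    _ = _ := by ring

/-- no dense spot: the local condition of `Loc.main` -/
theorem local_of_not_bad (K : ℕ) (ω : Fin n → Finset (Fin m)) (hω : ¬ Bad K ω)
    (a : Fin m → Fin n → ℝ) (a1 : ∀ i j, |a i j| ≤ 1) (a0 : ∀ i j, i ∉ ω j → a i j = 0)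
    (X : Finset (Fin n)) (hX : X.Nonempty) (hXK : X.card ≤ K) :
    (univ.filter (fun i => (7 : ℝ) < ∑ j ∈ X, |a i j|)).card < X.card := by
  classical
  by_contra hcon
  push Not at hcon
  obtain ⟨R, hR1, hR2⟩ := Finset.exists_subset_card_eq hcon
  apply hω
  refine ⟨X, R, hX, hXK, hR2, ?_⟩
  have h1 : (inc ω X R).card = ∑ i ∈ R, (X.filter (fun j => i ∈ ω j)).card := by
    rw [Finset.card_eq_sum_card_fiberwise (s := inc ω X R) (t := R) (f := fun p => p.2)
      (fun p hp => (mem_product.1 (mem_filter.1 hp).1).2)]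
    refine sum_congr rfl fun i hi => ?_
    symm
    refine Finset.card_bij (fun j _ => (j, i)) ?_ ?_ ?_
    · intro j hj
      simp only [mem_filter] at hj
      simp [inc, hj.1, hj.2, hi]
    · intro j _ j' _ h
      simpa using h
    · rintro ⟨j, i'⟩ hp
      simp only [mem_filter] at hp
      obtain ⟨h1, h2⟩ := hp
      subst h2
      simp only [inc, mem_filter, mem_product] at h1
      exact ⟨j, by simp [h1.1.1, h1.2], rfl⟩
  rw [h1, ← hR2, mul_comm, ← smul_eq_mul]
  refine Finset.card_nsmul_le_sum _ _ _ fun i hi => ?_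
  have h2 : (7 : ℝ) < ∑ j ∈ X, |a i j| := (mem_filter.1 (hR1 hi)).2
  have h3 : ∑ j ∈ X, |a i j| ≤ ((X.filter (fun j => i ∈ ω j)).card : ℝ) := by
    calc ∑ j ∈ X, |a i j| ≤ ∑ j ∈ X, (if i ∈ ω j then (1 : ℝ) else 0) := by
          refine sum_le_sum fun j _ => ?_
          split_ifs with h
          · exact a1 i j
          · rw [a0 i j h]; simp
      _ = _ := by rw [← Finset.sum_filter]; simp
  have h4 : (7 : ℝ) < ((X.filter (fun j => i ∈ ω j)).card : ℝ) := lt_of_lt_of_le h2 h3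
  have h5 : 7 < (X.filter (fun j => i ∈ ω j)).card := by exact_mod_cast h4
  omega

end Pool.Agent.Y963.BF.Ran
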