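import Mathlib
import Pool.Agent.Y963.BF.Ran
import Pool.Agent.Y963.BF.Lin

/-!
# Random supports: uniformly random sets of given size, and the resulting bound
-/

set_option autoImplicit false

namespace Pool.Agent.Y963.BF.Uni

open Finset

variable {m n : ℕ}

theorem choose_ratio (m b : ℕ) (hb : b ≤ m) : ∀ r : ℕ, r ≤ b →
    ((m - r).choose (b - r) : ℝ) * (m : ℝ) ^ r ≤ (m.choose b : ℝ) * (b : ℝ) ^ r := by
  intro r
  induction r with
  | zero => intro _; simp
  | succ r ih =>
    intro hr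
    have h1 := ih (by omega)
    obtain ⟨k, hk⟩ : ∃ k, b - r = k + 1 := ⟨b - r - 1, by omega⟩
    obtain ⟨l, hl⟩ : ∃ l, m - r = l + 1 := ⟨m - r - 1, by omega⟩
    have e1 : m - (r + 1) = l := by omega
    have e2 : b - (r + 1) = k := by omega
    rw [e1, e2]
    rw [hk, hl] at h1
    have h2 : ((l + 1 : ℕ) : ℝ) * (l.choose k : ℝ) =
        ((l + 1).choose (k + 1) : ℝ) * ((k + 1 : ℕ) : ℝ) := by
      exact_mod_cast Nat.add_one_mul_choose_eq l k
    have hl0 : (0 : ℝ) < ((l + 1 : ℕ) : ℝ) := by positivity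
    -- (k+1) m ≤ (l+1) b
    have h3 : ((k + 1 : ℕ) : ℝ) * m ≤ ((l + 1 : ℕ) : ℝ) * b := by
      have h4 : (k + 1) * m ≤ (l + 1) * b := by
        have e3 : m = l + 1 + r := by omega
        have e4 : b = k + 1 + r := by omega
        rw [e3, e4]
        have : k ≤ l := by omega
        nlinarith
      exact_mod_cast h4
    have h5 : ((l + 1 : ℕ) : ℝ) * ((l.choose k : ℝ) * (m : ℝ) ^ (r + 1)) ≤
        ((l + 1 : ℕ) : ℝ) * ((m.choose b : ℝ) * (b : ℝ) ^ (r + 1)) := by
      calc ((l + 1 : ℕ) : ℝ) * ((l.choose k : ℝ) * (m : ℝ) ^ (r + 1)) =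
          (((l + 1 : ℕ) : ℝ) * (l.choose k : ℝ)) * (m : ℝ) ^ (r + 1) := by ring
        _ = (((l + 1).choose (k + 1) : ℝ) * (m : ℝ) ^ r) * (((k + 1 : ℕ) : ℝ) * m) := by
            rw [h2]; ring
        _ ≤ ((m.choose b : ℝ) * (b : ℝ) ^ r) * (((l + 1 : ℕ) : ℝ) * b) :=
            mul_le_mul h1 h3 (by positivity) (by positivity)
        _ = _ := by ring
    exact le_of_mul_le_mul_left h5 hl0

theorem card_sup (b : ℕ) (R : Finset (Fin m)) :
    (univ.filter (fun D : Finset (Fin m) => R ⊆ D ∧ D.card = b)).card ≤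
      if R.card ≤ b then (m - R.card).choose (b - R.card) else 0 := by
  classical
  split_ifs with hR
  · have h1 : (univ.filter (fun D : Finset (Fin m) => R ⊆ D ∧ D.card = b)).card ≤
        (powersetCard (b - R.card) (univ \ R)).card := by
      refine card_le_card_of_injOn (fun D => D \ R) ?_ ?_
      · intro D hD
        obtain ⟨h1, h2⟩ := (mem_filter.1 hD).2
        rw [mem_coe, mem_powersetCard]
        refine ⟨sdiff_subset_sdiff (subset_univ _) (Finset.Subset.refl _), ?_⟩
        rw [card_sdiff_of_subset h1, h2]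
      · intro D hD D' hD' h
        have h1 := (mem_filter.1 hD).2.1
        have h2 := (mem_filter.1 hD').2.1
        simp only at h
        calc D = (D \ R) ∪ R := (sdiff_union_of_subset h1).symm
          _ = (D' \ R) ∪ R := by rw [h]
          _ = D' := sdiff_union_of_subset h2
    refine h1.trans (le_of_eq ?_)
    rw [card_powersetCard, card_sdiff_of_subset (subset_univ _), card_univ, Fintype.card_fin]
  · rw [Nat.le_zero, card_eq_zero, filter_eq_empty_iff]
    rintro D _ ⟨h1, h2⟩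
    have := card_le_card h1
    omega

/-- the uniform distribution on the sets with `b` elements -/
noncomputable def unif (m b : ℕ) (D : Finset (Fin m)) : ℝ :=
  if D.card = b then 1 / (m.choose b : ℝ) else 0

theorem unif_nonneg (b : ℕ) (D : Finset (Fin m)) : 0 ≤ unif m b D := by
  unfold unif
  split_ifs
  · positivity
  · exact le_rfl

theorem unif_sum (b : ℕ) (hbm : b ≤ m) : ∑ D : Finset (Fin m), unif m b D = 1 := by
  unfold unif
  rw [← Finset.sum_filter, sum_const, nsmul_eq_mul]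
  have : (univ.filter (fun D : Finset (Fin m) => D.card = b)) = powersetCard b univ := by
    ext D; simp [mem_powersetCard]
  rw [this, card_powersetCard, card_univ, Fintype.card_fin]
  have : (0 : ℝ) < m.choose b := by exact_mod_cast Nat.choose_pos hbm
  field_simp

theorem unif_spread (b : ℕ) (hm : 1 ≤ m) (hbm : b ≤ m) (R : Finset (Fin m)) :
    ∑ D ∈ univ.filter (fun D => R ⊆ D), unif m b D ≤ ((b : ℝ) / m) ^ R.card := by
  have hm0 : (0 : ℝ) < m := by exact_mod_cast hm
  have hc0 : (0 : ℝ) < m.choose b := by exact_mod_cast Nat.choose_pos hbm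
  unfold unif
  rw [← Finset.sum_filter, Finset.filter_filter, sum_const, nsmul_eq_mul, mul_one_div,
    div_le_iff₀ hc0]
  have h1 := card_sup b R
  by_cases hR : R.card ≤ b
  · rw [if_pos hR] at h1
    have h2 := choose_ratio m b hbm R.card hR
    have h3 : ((univ.filter (fun D : Finset (Fin m) => R ⊆ D ∧ D.card = b)).card : ℝ) ≤
        ((m - R.card).choose (b - R.card) : ℝ) := by exact_mod_cast h1
    refine h3.trans ?_
    have h4 : (0 : ℝ) < (m : ℝ) ^ R.card := by positivity
    rw [div_pow, div_mul_eq_mul_div, le_div_iff₀ h4]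
    linarith
  · rw [if_neg hR] at h1
    have h3 : ((univ.filter (fun D : Finset (Fin m) => R ⊆ D ∧ D.card = b)).card : ℝ) ≤ 0 := by
      exact_mod_cast h1
    refine h3.trans (by positivity)

/-- from distributions to counting -/
theorem count (P : (Fin n → Finset (Fin m)) → Prop) [DecidablePred P] (b : ℕ) (hbm : b ≤ m) (c : ℝ)
    (h : ∑ D ∈ univ.filter (fun D => P D), ∏ j, unif m b (D j) ≤ c) :
    ((univ.filter (fun D : Fin n → Finset (Fin m) => (∀ j, (D j).card = b) ∧ P D)).card : ℝ) ≤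
      c * (m.choose b : ℝ) ^ n := by
  have hc0 : (0 : ℝ) < m.choose b := by exact_mod_cast Nat.choose_pos hbm
  have e1 : ∑ D ∈ univ.filter (fun D => P D), ∏ j, unif m b (D j) =
      ∑ D ∈ univ.filter (fun D : Fin n → Finset (Fin m) => (∀ j, (D j).card = b) ∧ P D),
        (1 / (m.choose b : ℝ)) ^ n := by
    rw [Finset.sum_filter, Finset.sum_filter]
    refine sum_congr rfl fun D _ => ?_
    by_cases hP : P D
    · by_cases hD : ∀ j, (D j).card = b
      · rw [if_pos hP, if_pos ⟨hD, hP⟩]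
        have : ∀ j, unif m b (D j) = 1 / (m.choose b : ℝ) := fun j => if_pos (hD j)
        simp [this]
      · rw [if_pos hP, if_neg (fun h => hD h.1)]
        push Not at hD
        obtain ⟨j, hj⟩ := hD
        exact prod_eq_zero (mem_univ j) (if_neg hj)
    · rw [if_neg hP, if_neg (fun h => hP h.2)]
  rw [e1, sum_const, nsmul_eq_mul] at h
  have h4 : (0 : ℝ) < (m.choose b : ℝ) ^ n := by positivity
  calc _ = (((univ.filter (fun D : Fin n → Finset (Fin m) =>
          (∀ j, (D j).card = b) ∧ P D)).card : ℝ) * (1 / (m.choose b : ℝ)) ^ n) *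
          (m.choose b : ℝ) ^ n := by
        rw [div_pow, one_pow]; field_simp
    _ ≤ _ := mul_le_mul_of_nonneg_right h h4.le

/-- the scale -/
noncomputable def K (m n : ℕ) (b : ℝ) : ℕ :=
  ⌊(n : ℝ) / (2 * (b * max 1 ((n : ℝ) / m)) ^ 2)⌋₊

theorem K_le (m n : ℕ) (b : ℝ) (hb : 1 ≤ b) :
    2 * (b * max 1 ((n : ℝ) / m)) ^ 2 * (K m n b : ℝ) ≤ n := by
  have hM1 : (1 : ℝ) ≤ max 1 ((n : ℝ) / m) := le_max_left _ _
  have h1 : (0 : ℝ) < b * max 1 ((n : ℝ) / m) := by positivity
  have h2 := Nat.floor_le (a := (n : ℝ) / (2 * (b * max 1 ((n : ℝ) / m)) ^ 2)) (by positivity)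
  rw [le_div_iff₀ (by positivity)] at h2
  unfold K
  linarith

/-- signings of matrices supported on sets without dense spots -/
theorem sign (ω : Fin n → Finset (Fin m)) (b : ℝ) (hb : 1 ≤ b)
    (hω : ¬ Ran.Bad (K m n b) ω) (a : Fin m → Fin n → ℝ) (t : ℝ) (ht : 1 ≤ t)
    (a1 : ∀ i j, |a i j| ≤ 1) (hcol : ∀ j, ∑ i, a i j ^ 2 ≤ t)
    (a0 : ∀ i j, i ∉ ω j → a i j = 0) :
    ∃ χ : Fin n → ℝ, (∀ j, χ j = 1 ∨ χ j = -1) ∧ ∀ i, |∑ j, a i j * χ j| ≤
      3134 * Real.sqrt t + 1410000 * ((1 + Real.log t) ^ (3 / 2 : ℝ) *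
        Real.sqrt (1 + Real.log (b * max 1 ((n : ℝ) / m)))) := by
  have hM1 : (1 : ℝ) ≤ max 1 ((n : ℝ) / m) := le_max_left _ _
  set W : ℝ := b * max 1 ((n : ℝ) / m) with hW
  have hW1 : 1 ≤ W := by nlinarith
  have hW0 : 0 < W := by linarith
  set ε : ℝ := 1 / (2 * W ^ 2) with hε
  have hε0 : 0 < ε := by positivity
  have hε2 : ε ≤ 1 / 2 := by
    rw [hε]
    apply one_div_le_one_div_of_le (by norm_num)
    nlinarith
  obtain ⟨χ, h1, h2⟩ := Lin.spots a t ε ht a1 hcol hε0 hε2 (fun _ => 1) (fun _ => zero_le_one)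
    (fun _ => 7) (fun _ => by norm_num) (by
      intro X hX hXp
      refine Ran.local_of_not_bad (K m n b) ω hω a a1 a0 X hX ?_
      simp only [sum_const, nsmul_eq_mul, mul_one, card_univ, Fintype.card_fin] at hXp
      refine Nat.le_floor ?_
      rw [hε] at hXp
      refine hXp.trans (le_of_eq ?_)
      ring)
  refine ⟨χ, h1, fun i => (h2 i).trans ?_⟩
  have hlt : 0 ≤ Real.log t := Real.log_nonneg ht
  have hlW : 0 ≤ Real.log W := Real.log_nonneg hW1
  have hst : 1 ≤ Real.sqrt t := Real.one_le_sqrt.2 ht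
  have h3 : Real.log (1 / ε) ≤ 2 * (1 + Real.log W) := by
    rw [hε, one_div_one_div, Real.log_mul (by norm_num) (by positivity), Real.log_pow]
    have := Real.log_two_lt_d9
    push_cast
    linarith
  have h4 : Real.sqrt (Real.log (1 / ε)) ≤ 3 / 2 * Real.sqrt (1 + Real.log W) := by
    calc Real.sqrt (Real.log (1 / ε)) ≤ Real.sqrt (2 * (1 + Real.log W)) := Real.sqrt_le_sqrt h3
      _ = Real.sqrt 2 * Real.sqrt (1 + Real.log W) := Real.sqrt_mul (by norm_num) _
      _ ≤ 3 / 2 * Real.sqrt (1 + Real.log W) := by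
          gcongr
          rw [Real.sqrt_le_left (by norm_num)]
          norm_num
  have hp0 : 0 ≤ (1 + Real.log t) ^ (3 / 2 : ℝ) := by positivity
  unfold H167KL.fin
  have h5 : 940000 * Real.sqrt (Real.log (1 / ε)) * (1 + Real.log t) ^ (3 / 2 : ℝ) ≤
      940000 * (3 / 2 * Real.sqrt (1 + Real.log W)) * (1 + Real.log t) ^ (3 / 2 : ℝ) := by
    gcongr
  nlinarith

end Pool.Agent.Y963.BF.Uni
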